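import Mathlib
import Pool.Agent.H744R2.KZ.Props
import Pool.Agent.H747R2.Kad.Fourth
import Pool.Agent.H143R2.Kad.Trunc
import Pool.Agent.H880R2.Kad.GtSa
import Pool.Agent.H873R2.Kad.GT

/-!
Row bound for bounded derivations of algebras with the property `HasY`.
-/

open scoped ComplexOrder InnerProductSpace ComplexConjugate Topology
open Finset Filter

noncomputable section

namespace H744R2.KZ

open H759R2.Kad

universe u

namespace Y_rowaux

theorem gt : St_gt.{u, u} := prove_gt (prove_gtsa prove_fourth prove_trunc)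

variable {L : Type u} [NormedAddCommGroup L] [InnerProductSpace ℂ L] [CompleteSpace L]

/-- Cauchy-Schwarz in the form of a duality. -/
theorem pair {κ : Type} [Fintype κ] (S : κ → (L →L[ℂ] L)) (w : κ → L) (v : L)
    (hv : v = ∑ j, S j (w j)) (C : ℝ) (hC : 0 ≤ C)
    (h : ∑ j, ‖star (S j) v‖ ^ 2 ≤ C * ‖v‖ ^ 2) : ‖v‖ ^ 2 ≤ C * ∑ j, ‖w j‖ ^ 2 := by
  have hW : 0 ≤ ∑ j, ‖w j‖ ^ 2 := Finset.sum_nonneg fun j _ => by positivity
  rcases eq_or_ne v 0 with h0 | h0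
  · rw [h0]
    simp only [norm_zero, ne_eq, OfNat.ofNat_ne_zero, not_false_eq_true, zero_pow]
    positivity
  have hv0 : 0 < ‖v‖ := norm_pos_iff.2 h0
  have h1 : ‖v‖ ^ 2 ≤ ∑ j, ‖star (S j) v‖ * ‖w j‖ := by
    have e1 : (⟪v, v⟫_ℂ) = ∑ j, ⟪star (S j) v, w j⟫_ℂ := by
      calc (⟪v, v⟫_ℂ) = ⟪v, ∑ j, S j (w j)⟫_ℂ := by rw [← hv]
        _ = ∑ j, ⟪v, S j (w j)⟫_ℂ := inner_sum _ _ _
        _ = ∑ j, ⟪star (S j) v, w j⟫_ℂ := by
            refine Finset.sum_congr rfl fun j _ => ?_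
            rw [ContinuousLinearMap.star_eq_adjoint, ContinuousLinearMap.adjoint_inner_left]
    have e2 : ‖(⟪v, v⟫_ℂ)‖ = ‖v‖ ^ 2 := by
      rw [inner_self_eq_norm_sq_to_K]
      simp
    rw [← e2, e1]
    exact (norm_sum_le _ _).trans (Finset.sum_le_sum fun j _ => norm_inner_le_norm _ _)
  have h2 : (∑ j, ‖star (S j) v‖ * ‖w j‖) ^ 2 ≤ (∑ j, ‖star (S j) v‖ ^ 2) * ∑ j, ‖w j‖ ^ 2 :=
    Finset.sum_mul_sq_le_sq_mul_sq _ _ _
  have h3 : (‖v‖ ^ 2) ^ 2 ≤ (C * ‖v‖ ^ 2) * ∑ j, ‖w j‖ ^ 2 :=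
    calc (‖v‖ ^ 2) ^ 2 ≤ (∑ j, ‖star (S j) v‖ * ‖w j‖) ^ 2 := by gcongr
      _ ≤ (∑ j, ‖star (S j) v‖ ^ 2) * ∑ j, ‖w j‖ ^ 2 := h2
      _ ≤ _ := by gcongr
  have h4 : 0 < ‖v‖ ^ 2 := by positivity
  nlinarith

/-- The adjoint derivation. -/
def dplus {B : Type u} [CStarAlgebra B] (D : B →ₗ[ℂ] (L →L[ℂ] L)) : B →ₗ[ℂ] (L →L[ℂ] L) where
  toFun a := star (D (star a))
  map_add' a b := by simp only [star_add, map_add]
  map_smul' c a := by
    simp only [star_smul, map_smul, RingHom.id_apply, star_star]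

theorem dplus_apply {B : Type u} [CStarAlgebra B] (D : B →ₗ[ℂ] (L →L[ℂ] L)) (a : B) :
    dplus D a = star (D (star a)) := rfl

theorem dplus_der {B : Type u} [CStarAlgebra B] {π : B →⋆ₐ[ℂ] (L →L[ℂ] L)}
    {D : B →ₗ[ℂ] (L →L[ℂ] L)} {K : ℝ} (h : IsBDer π D K) : IsBDer π (dplus D) K where
  leib a b := by
    rw [dplus_apply, dplus_apply, dplus_apply, star_mul, h.leib, star_add, star_mul, star_mul,
      map_star π, map_star π, star_star, star_star, add_comm]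
  nonneg := h.nonneg
  bound a := by
    rw [dplus_apply, norm_star]
    exact (h.bound _).trans (by rw [norm_star])

/-- `∑ ‖π(a k) ξ‖ ^ 2 ≤ ‖∑ a k* a k‖ ‖ξ‖ ^ 2`. -/
theorem col_pi {B : Type u} [CStarAlgebra B] (π : B →⋆ₐ[ℂ] (L →L[ℂ] L)) {κ : Type} [Fintype κ]
    (a : κ → B) (ξ : L) :
    ∑ k, ‖π (a k) ξ‖ ^ 2 ≤ ‖∑ k, star (a k) * a k‖ * ‖ξ‖ ^ 2 := by
  have h1 : ∀ k, ‖π (a k) ξ‖ ^ 2 = RCLike.re (⟪ξ, π (star (a k) * a k) ξ⟫_ℂ) := by
    intro k
    rw [map_mul, map_star, ContinuousLinearMap.star_eq_adjoint]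
    have : (⟪ξ, (ContinuousLinearMap.adjoint (π (a k)) * π (a k)) ξ⟫_ℂ) =
        ⟪π (a k) ξ, π (a k) ξ⟫_ℂ := by
      show (⟪ξ, ContinuousLinearMap.adjoint (π (a k)) (π (a k) ξ)⟫_ℂ) = _
      rw [ContinuousLinearMap.adjoint_inner_right]
    rw [this, inner_self_eq_norm_sq]
  have h2 : ∑ k, ‖π (a k) ξ‖ ^ 2 = RCLike.re (⟪ξ, π (∑ k, star (a k) * a k) ξ⟫_ℂ) := by
    rw [map_sum, ContinuousLinearMap.sum_apply, inner_sum, map_sum]
    exact Finset.sum_congr rfl fun k _ => h1 k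
  rw [h2]
  have h3 : ‖π (∑ k, star (a k) * a k)‖ ≤ ‖∑ k, star (a k) * a k‖ :=
    NonUnitalStarAlgHom.norm_apply_le π _
  calc RCLike.re (⟪ξ, π (∑ k, star (a k) * a k) ξ⟫_ℂ)
      ≤ ‖(⟪ξ, π (∑ k, star (a k) * a k) ξ⟫_ℂ)‖ := RCLike.re_le_norm _
    _ ≤ ‖ξ‖ * ‖π (∑ k, star (a k) * a k) ξ‖ := norm_inner_le_norm _ _
    _ ≤ ‖ξ‖ * (‖∑ k, star (a k) * a k‖ * ‖ξ‖) := by
        gcongr
        exact (π (∑ k, star (a k) * a k)).le_of_opNorm_le h3 ξ
    _ = _ := by ring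

/-- The column bound up to `ε`. -/
theorem col_eps {B : Type u} [CStarAlgebra B] [PartialOrder B] [StarOrderedRing B]
    {π : B →⋆ₐ[ℂ] (L →L[ℂ] L)} {D : B →ₗ[ℂ] (L →L[ℂ] L)} {K : ℝ} (hD : IsBDer π D K)
    (hY : HasY B) {n : ℕ} (a : Fin n → B) (ξ : L) (ε : ℝ) (hε : 0 < ε) :
    ∑ k, ‖D (a k) ξ‖ ^ 2 ≤ 12 * K ^ 2 * ‖∑ k, star (a k) * a k‖ * ‖ξ‖ ^ 2 +
      ε * (6 * K ^ 2 * ‖ξ‖ ^ 2 * (‖∑ k, star (a k) * a k‖ + ‖∑ k, a k * star (a k)‖)) := by
  obtain ⟨m, y, hy1, hy2⟩ := hY ε hε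
  have hK := hD.nonneg
  set R : ℝ := ‖∑ k, star (a k) * a k‖ with hR
  set R' : ℝ := ‖∑ k, a k * star (a k)‖ with hR'
  have hR0 : 0 ≤ R := norm_nonneg _
  have hR0' : 0 ≤ R' := norm_nonneg _
  have hone : ‖(1 : B)‖ ≤ 1 := by
    rcases subsingleton_or_nontrivial B with h | h
    · rw [Subsingleton.elim (1 : B) 0, norm_zero]
      exact zero_le_one
    · exact (CStarRing.norm_one (E := B)).le
  -- the two parts
  let P : Fin n → L := fun k => ∑ j, D (star (y j)) (π (y j * a k) ξ)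
  let Q : Fin n → L := fun k => ∑ j, star (π (y j)) (D (y j * a k) ξ)
  have hPQ : ∀ k, D (a k) ξ = P k + Q k := by
    intro k
    have h1 : a k = ∑ j, star (y j) * (y j * a k) := by
      simp_rw [← mul_assoc]
      rw [← Finset.sum_mul, hy1, one_mul]
    calc D (a k) ξ = D (∑ j, star (y j) * (y j * a k)) ξ := by rw [← h1]
      _ = ∑ j, D (star (y j) * (y j * a k)) ξ := by
          rw [map_sum, ContinuousLinearMap.sum_apply]
      _ = ∑ j, (D (star (y j)) (π (y j * a k) ξ) + star (π (y j)) (D (y j * a k) ξ)) := by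
          refine Finset.sum_congr rfl fun j _ => ?_
          rw [hD.leib, map_star π]
          rw [add_comm]
          rfl
      _ = P k + Q k := by
          rw [Finset.sum_add_distrib]
  -- bound for Q
  have hQ : ∀ k, ‖Q k‖ ^ 2 ≤ 1 * ∑ j, ‖D (y j * a k) ξ‖ ^ 2 := by
    intro k
    refine pair (fun j => star (π (y j))) (fun j => D (y j * a k) ξ) (Q k) rfl 1 zero_le_one ?_
    simp only [star_star]
    refine (col_pi π y (Q k)).trans ?_
    rw [hy1]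
    gcongr
  have hQs : ∑ k, ‖Q k‖ ^ 2 ≤ 3 * (K * ‖ξ‖) ^ 2 * (R + ε * R') := by
    have h1 : ∑ k, ‖Q k‖ ^ 2 ≤ ∑ p : Fin n × Fin m, ‖D (y p.2 * a p.1) ξ‖ ^ 2 := by
      rw [Fintype.sum_prod_type]
      refine Finset.sum_le_sum fun k _ => ?_
      simpa using hQ k
    have h2 := gt B L ((ContinuousLinearMap.apply ℂ L ξ).toLinearMap.comp D) (K * ‖ξ‖)
      (by positivity) (fun b => by
        simp only [LinearMap.comp_apply, ContinuousLinearMap.coe_coe,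
          ContinuousLinearMap.apply_apply]
        calc ‖D b ξ‖ ≤ (K * ‖b‖) * ‖ξ‖ := (D b).le_of_opNorm_le (hD.bound b) ξ
          _ = K * ‖ξ‖ * ‖b‖ := by ring) (Fin n × Fin m) (fun p => y p.2 * a p.1)
    simp only [LinearMap.comp_apply, ContinuousLinearMap.coe_coe,
      ContinuousLinearMap.apply_apply] at h2
    have e1 : ∑ p : Fin n × Fin m, star (y p.2 * a p.1) * (y p.2 * a p.1) =
        ∑ k, star (a k) * a k := by
      rw [Fintype.sum_prod_type]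
      refine Finset.sum_congr rfl fun k _ => ?_
      have : ∀ j, star (y j * a k) * (y j * a k) = star (a k) * (star (y j) * y j) * a k := by
        intro j
        rw [star_mul]
        simp only [mul_assoc]
      simp_rw [this]
      rw [← Finset.sum_mul, ← Finset.mul_sum, hy1, mul_one]
    have e2 : ‖∑ p : Fin n × Fin m, (y p.2 * a p.1) * star (y p.2 * a p.1)‖ ≤ ε * R' := by
      rw [Fintype.sum_prod_type_right]
      have e3 : ∀ j, ∑ k, (y j * a k) * star (y j * a k) =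
          y j * (∑ k, a k * star (a k)) * star (y j) := by
        intro j
        rw [Finset.mul_sum, Finset.sum_mul]
        refine Finset.sum_congr rfl fun k _ => ?_
        rw [star_mul]
        simp only [mul_assoc]
      simp only
      simp_rw [e3]
      have hpos : 0 ≤ ∑ k, a k * star (a k) :=
        Finset.sum_nonneg fun k _ => mul_star_self_nonneg _
      have hle : ∑ k, a k * star (a k) ≤ algebraMap ℝ B R' :=
        IsSelfAdjoint.le_algebraMap_norm_self (IsSelfAdjoint.of_nonneg hpos)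
      have hle2 : ∑ j, y j * (∑ k, a k * star (a k)) * star (y j) ≤
          R' • ∑ j, y j * star (y j) := by
        rw [Finset.smul_sum]
        refine Finset.sum_le_sum fun j _ => ?_
        refine (star_right_conjugate_le_conjugate hle (y j)).trans (le_of_eq ?_)
        rw [Algebra.algebraMap_eq_smul_one, mul_smul_comm, mul_one, smul_mul_assoc]
      have hpos2 : 0 ≤ ∑ j, y j * (∑ k, a k * star (a k)) * star (y j) :=
        Finset.sum_nonneg fun j _ => star_right_conjugate_nonneg hpos (y j)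
      refine (CStarAlgebra.norm_le_norm_of_nonneg_of_le hpos2 hle2).trans ?_
      rw [norm_smul, Real.norm_of_nonneg hR0', mul_comm]
      gcongr
    refine h1.trans (h2.trans ?_)
    rw [e1]
    gcongr
  -- bound for P
  have hP : ∀ k, ‖P k‖ ^ 2 ≤ (3 * K ^ 2 * (1 + ε)) * ∑ j, ‖π (y j * a k) ξ‖ ^ 2 := by
    intro k
    refine pair (fun j => D (star (y j))) (fun j => π (y j * a k) ξ) (P k) rfl _ (by positivity) ?_
    have h2 := gt B L ((ContinuousLinearMap.apply ℂ L (P k)).toLinearMap.comp (dplus D))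
      (K * ‖P k‖) (by positivity) (fun b => by
        simp only [LinearMap.comp_apply, ContinuousLinearMap.coe_coe,
          ContinuousLinearMap.apply_apply]
        calc ‖dplus D b (P k)‖ ≤ (K * ‖b‖) * ‖P k‖ :=
              (dplus D b).le_of_opNorm_le ((dplus_der hD).bound b) _
          _ = K * ‖P k‖ * ‖b‖ := by ring) (Fin m) y
    simp only [LinearMap.comp_apply, ContinuousLinearMap.coe_coe,
      ContinuousLinearMap.apply_apply, dplus_apply] at h2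
    refine h2.trans ?_
    rw [hy1]
    calc 3 * (K * ‖P k‖) ^ 2 * (‖(1 : B)‖ + ‖∑ j, y j * star (y j)‖)
        ≤ 3 * (K * ‖P k‖) ^ 2 * (1 + ε) := by gcongr
      _ = _ := by ring
  have hPs : ∑ k, ‖P k‖ ^ 2 ≤ (3 * K ^ 2 * (1 + ε)) * (R * ‖ξ‖ ^ 2) := by
    have h1 : ∀ k, ∑ j, ‖π (y j * a k) ξ‖ ^ 2 ≤ ‖π (a k) ξ‖ ^ 2 := by
      intro k
      have h2 := col_pi π y (π (a k) ξ)
      rw [hy1] at h2
      have h3 : ∀ j, π (y j * a k) ξ = π (y j) (π (a k) ξ) := by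
        intro j
        rw [map_mul]
        rfl
      simp_rw [h3]
      refine h2.trans ?_
      calc ‖(1 : B)‖ * ‖π (a k) ξ‖ ^ 2 ≤ 1 * ‖π (a k) ξ‖ ^ 2 := by gcongr
        _ = _ := one_mul _
    calc ∑ k, ‖P k‖ ^ 2 ≤ ∑ k, (3 * K ^ 2 * (1 + ε)) * ‖π (a k) ξ‖ ^ 2 := by
          refine Finset.sum_le_sum fun k _ => (hP k).trans ?_
          gcongr
          exact h1 k
      _ = (3 * K ^ 2 * (1 + ε)) * ∑ k, ‖π (a k) ξ‖ ^ 2 := by rw [Finset.mul_sum]
      _ ≤ _ := by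
          gcongr
          exact col_pi π a ξ
  -- conclusion
  have hfin : ∑ k, ‖D (a k) ξ‖ ^ 2 ≤ 2 * ∑ k, ‖P k‖ ^ 2 + 2 * ∑ k, ‖Q k‖ ^ 2 := by
    rw [Finset.mul_sum, Finset.mul_sum, ← Finset.sum_add_distrib]
    refine Finset.sum_le_sum fun k _ => ?_
    rw [hPQ k]
    have h1 := norm_add_le (P k) (Q k)
    have h2 : ‖P k + Q k‖ ^ 2 ≤ (‖P k‖ + ‖Q k‖) ^ 2 := by gcongr
    nlinarith [sq_nonneg (‖P k‖ - ‖Q k‖)]
  refine hfin.trans ?_
  have : 2 * ∑ k, ‖P k‖ ^ 2 + 2 * ∑ k, ‖Q k‖ ^ 2 ≤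
      2 * ((3 * K ^ 2 * (1 + ε)) * (R * ‖ξ‖ ^ 2)) + 2 * (3 * (K * ‖ξ‖) ^ 2 * (R + ε * R')) := by
    gcongr
  refine this.trans (le_of_eq ?_)
  ring

/-- The column bound. -/
theorem col {B : Type u} [CStarAlgebra B] [PartialOrder B] [StarOrderedRing B]
    {π : B →⋆ₐ[ℂ] (L →L[ℂ] L)} {D : B →ₗ[ℂ] (L →L[ℂ] L)} {K : ℝ} (hD : IsBDer π D K)
    (hY : HasY B) {n : ℕ} (a : Fin n → B) (ξ : L) :
    ∑ k, ‖D (a k) ξ‖ ^ 2 ≤ 12 * K ^ 2 * ‖∑ k, star (a k) * a k‖ * ‖ξ‖ ^ 2 := by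
  set E : ℝ := 6 * K ^ 2 * ‖ξ‖ ^ 2 * (‖∑ k, star (a k) * a k‖ + ‖∑ k, a k * star (a k)‖) with hE
  have hE0 : 0 ≤ E := by positivity
  refine le_of_forall_pos_le_add fun δ hδ => ?_
  have h := col_eps hD hY a ξ (δ / (E + 1)) (by positivity)
  refine h.trans ?_
  rw [← hE]
  have : δ / (E + 1) * E ≤ δ := by
    rw [div_mul_eq_mul_div, div_le_iff₀ (by positivity)]
    nlinarith
  linarith

end Y_rowaux

open Y_rowaux in
theorem prove_Y_row : Y_row.{u} := by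
  intro B _ _ _ L _ _ _ π D K hD hY n a ξ
  have hK := hD.nonneg
  set v : L := ∑ k, D (a k) (ξ k) with hv
  refine pair (fun k => D (a k)) ξ v hv (24 * K ^ 2 * ‖∑ k, a k * star (a k)‖) (by positivity) ?_
  have h := col (dplus_der hD) hY (fun k => star (a k)) v
  simp only [dplus_apply, star_star] at h
  refine h.trans ?_
  gcongr
  norm_num

end H744R2.KZ
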