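import Mathlib
import Pool.Agent.H744R2.KZ.Props

/-!
A bounded derivation of a von Neumann algebra is inner on the centre.
-/

open scoped ComplexOrder InnerProductSpace ComplexConjugate Topology
open Finset Filter

noncomputable section

namespace H744R2.KZ

open H759R2.Kad

universe u

namespace Z_pertaux

/-- Finite means on commutative groups which are almost invariant. -/
theorem mean {G : Type u} [Group G] (hc : ∀ a b : G, a * b = b * a) {E : Type u}
    [NormedAddCommGroup E] [NormedSpace ℂ E] (N : ℕ) (F : Finset G) :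
    ∃ (n : ℕ) (x : Fin (n + 1) → G), ∀ (K : ℝ) (f : G → E), (∀ g, ‖f g‖ ≤ K) → ∀ u ∈ F,
      ‖((n + 1 : ℂ))⁻¹ • ∑ i, (f (x i * u) - f (x i))‖ ≤ 2 * K / (N + 1) := by
  classical
  suffices h : ∃ (ι : Type) (_ : Fintype ι) (_ : Nonempty ι) (x : ι → G), ∀ (K : ℝ) (f : G → E),
      (∀ g, ‖f g‖ ≤ K) → ∀ u ∈ F,
      ‖((Fintype.card ι : ℂ))⁻¹ • ∑ i, (f (x i * u) - f (x i))‖ ≤ 2 * K / (N + 1) by
    obtain ⟨ι, _, _, x, hx⟩ := h
    obtain ⟨n, hn⟩ : ∃ n, Fintype.card ι = n + 1 :=
      ⟨Fintype.card ι - 1, (Nat.succ_pred_eq_of_pos Fintype.card_pos).symm⟩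
    let e : Fin (n + 1) ≃ ι := ((Fintype.equivFin ι).trans (finCongr hn)).symm
    refine ⟨n, fun i => x (e i), fun K f hf u hu => ?_⟩
    have := hx K f hf u hu
    rw [hn] at this
    rw [Equiv.sum_comp e (fun i => f (x i * u) - f (x i))]
    simpa using this
  induction F using Finset.induction_on with
  | empty =>
    refine ⟨Unit, inferInstance, inferInstance, fun _ => 1, fun K f hf u hu => ?_⟩
    simp at hu
  | insert v F hv ih =>
    obtain ⟨ι, hι, hne, x, hx⟩ := ih
    refine ⟨ι × Fin (N + 1), inferInstance, inferInstance,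
      fun p => x p.1 * v ^ (p.2 : ℕ), fun K f hf u hu => ?_⟩
    have hK : 0 ≤ K := (norm_nonneg _).trans (hf 1)
    have hN : (0 : ℝ) < N + 1 := by positivity
    have hcard : ((Fintype.card (ι × Fin (N + 1)) : ℂ))⁻¹ =
        ((Fintype.card ι : ℂ))⁻¹ * ((N + 1 : ℂ))⁻¹ := by
      rw [Fintype.card_prod, Fintype.card_fin]
      push_cast
      rw [mul_inv]
    rw [hcard, Fintype.sum_prod_type]
    rcases eq_or_ne u v with huv | huv
    · subst huv
      have h1 : ∀ i, ∑ k : Fin (N + 1), (f (x i * u ^ (k : ℕ) * u) - f (x i * u ^ (k : ℕ))) =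
          f (x i * u ^ (N + 1)) - f (x i) := by
        intro i
        rw [Fin.sum_univ_eq_sum_range (fun k => f (x i * u ^ k * u) - f (x i * u ^ k)) (N + 1)]
        have h2 : ∀ k, f (x i * u ^ k * u) = f (x i * u ^ (k + 1)) := by
          intro k
          rw [pow_succ, mul_assoc]
        simp_rw [h2]
        rw [Finset.sum_range_sub (fun k => f (x i * u ^ k))]
        simp
      simp_rw [h1]
      rw [norm_smul, norm_mul, norm_inv, norm_inv]
      have h3 : ‖∑ i, (f (x i * u ^ (N + 1)) - f (x i))‖ ≤ Fintype.card ι * (2 * K) := by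
        refine (norm_sum_le _ _).trans ?_
        refine (Finset.sum_le_sum fun i _ => (norm_sub_le _ _).trans
          (add_le_add (hf _) (hf _))).trans ?_
        simp only [Finset.sum_const, Finset.card_univ, nsmul_eq_mul]
        rw [two_mul]
      have h4 : ‖(Fintype.card ι : ℂ)‖ = Fintype.card ι := by simp
      have h5 : ‖(N + 1 : ℂ)‖ = N + 1 := by
        have : (N + 1 : ℂ) = ((N + 1 : ℝ) : ℂ) := by push_cast; ring
        rw [this, Complex.norm_real, Real.norm_of_nonneg hN.le]
      rw [h4, h5]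
      have h6 : (0 : ℝ) < Fintype.card ι := by exact_mod_cast Fintype.card_pos
      calc ((Fintype.card ι : ℝ))⁻¹ * ((N : ℝ) + 1)⁻¹ * ‖∑ i, (f (x i * u ^ (N + 1)) - f (x i))‖
          ≤ ((Fintype.card ι : ℝ))⁻¹ * ((N : ℝ) + 1)⁻¹ * (Fintype.card ι * (2 * K)) := by
            gcongr
        _ = 2 * K / (N + 1) := by field_simp
    · have huF : u ∈ F := by
        rcases Finset.mem_insert.1 hu with h | h
        · exact absurd h huv
        · exact h
      set f' : G → E := fun g => ((N + 1 : ℂ))⁻¹ • ∑ k : Fin (N + 1), f (g * v ^ (k : ℕ)) with hf'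
      have h5 : ‖(N + 1 : ℂ)‖ = N + 1 := by
        have : (N + 1 : ℂ) = ((N + 1 : ℝ) : ℂ) := by push_cast; ring
        rw [this, Complex.norm_real, Real.norm_of_nonneg hN.le]
      have hb : ∀ g, ‖f' g‖ ≤ K := by
        intro g
        rw [hf']
        simp only
        rw [norm_smul, norm_inv, h5]
        have : ‖∑ k : Fin (N + 1), f (g * v ^ (k : ℕ))‖ ≤ (N + 1) * K := by
          refine (norm_sum_le _ _).trans ?_
          refine (Finset.sum_le_sum fun i _ => hf _).trans ?_
          simp
        calc ((N : ℝ) + 1)⁻¹ * ‖∑ k : Fin (N + 1), f (g * v ^ (k : ℕ))‖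
            ≤ ((N : ℝ) + 1)⁻¹ * ((N + 1) * K) := by gcongr
          _ = K := by field_simp
      have := hx K f' hb u huF
      have h7 : ((Fintype.card ι : ℂ))⁻¹ • ∑ i, (f' (x i * u) - f' (x i)) =
          (((Fintype.card ι : ℂ))⁻¹ * ((N + 1 : ℂ))⁻¹) • ∑ i, ∑ k : Fin (N + 1),
            (f (x i * v ^ (k : ℕ) * u) - f (x i * v ^ (k : ℕ))) := by
        rw [mul_smul]
        congr 1
        rw [Finset.smul_sum]
        refine Finset.sum_congr rfl fun i _ => ?_
        rw [hf']
        simp only
        rw [← smul_sub, ← Finset.sum_sub_distrib]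
        congr 1
        refine Finset.sum_congr rfl fun k _ => ?_
        rw [mul_assoc (x i) u, hc u, ← mul_assoc]
      rw [h7] at this
      exact this

end Z_pertaux

open Z_pertaux in
theorem prove_Z_pert (h1 : W_lim.{u}) : Z_pert.{u} := by
  intro H _ _ _ M D K hD
  classical
  have hK := hD.nonneg
  -- the centre
  let Z : StarSubalgebra ℂ M.toStarSubalgebra :=
    StarSubalgebra.centralizer ℂ (Set.univ : Set M.toStarSubalgebra)
  have hZ : ∀ z : M.toStarSubalgebra, z ∈ Z ↔ ∀ g : M.toStarSubalgebra, g * z = z * g := by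
    intro z
    rw [StarSubalgebra.mem_centralizer_iff]
    constructor
    · intro h g
      exact (h g (Set.mem_univ _)).1
    · intro h g _
      exact ⟨h g, h (star g)⟩
  have hcl : IsClosed (Z : Set M.toStarSubalgebra) := by
    rw [StarSubalgebra.coe_centralizer]
    exact Set.isClosed_centralizer _
  let G := unitary Z
  have hc : ∀ a b : G, a * b = b * a := by
    intro a b
    apply Subtype.ext
    apply Subtype.ext
    exact ((hZ _).1 b.1.2 a.1.1)
  -- the inclusion of unitaries
  let op : G → (H →L[ℂ] H) := fun g => ((g.1.1 : M.toStarSubalgebra) : H →L[ℂ] H)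
  have opmul : ∀ g h : G, op (g * h) = op g * op h := fun g h => rfl
  have ops1 : ∀ g : G, star (op g) * op g = 1 := by
    intro g
    have := (Unitary.mem_iff.1 g.2).1
    have h2 := congrArg (fun z : Z => ((z.1 : M.toStarSubalgebra) : H →L[ℂ] H)) this
    exact h2
  have ops2 : ∀ g : G, op g * star (op g) = 1 := by
    intro g
    have := (Unitary.mem_iff.1 g.2).2
    have h2 := congrArg (fun z : Z => ((z.1 : M.toStarSubalgebra) : H →L[ℂ] H)) this
    exact h2
  have opc : ∀ g h : G, op g * op h = op h * op g := by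
    intro g h
    rw [← opmul, ← opmul, hc]
  have hone : ‖(1 : H →L[ℂ] H)‖ ≤ 1 := ContinuousLinearMap.norm_id_le
  have opn : ∀ g : G, ‖op g‖ ≤ 1 := by
    intro g
    have h := CStarRing.norm_star_mul_self (x := op g)
    rw [ops1] at h
    have h2 : ‖op g‖ * ‖op g‖ ≤ 1 := by rw [← h]; exact hone
    nlinarith [norm_nonneg (op g)]
  have opsn : ∀ g : G, ‖star (op g)‖ ≤ 1 := fun g => by rw [norm_star]; exact opn g
  let f : G → (H →L[ℂ] H) := fun g => star (op g) * D g.1.1
  have hf : ∀ g, ‖f g‖ ≤ K := by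
    intro g
    have h1 : ‖D g.1.1‖ ≤ K * 1 := (hD.bound _).trans (mul_le_mul_of_nonneg_left (opn g) hK)
    calc ‖f g‖ ≤ ‖star (op g)‖ * ‖D g.1.1‖ := norm_mul_le _ _
      _ ≤ 1 * (K * 1) := mul_le_mul (opsn g) h1 (norm_nonneg _) zero_le_one
      _ = K := by ring
  -- the approximations
  have hmean := fun (p : Finset G × ℕ) => mean (E := H →L[ℂ] H) hc p.2 p.1
  choose n x hx using hmean
  let T : Finset G × ℕ → (H →L[ℂ] H) := fun p => ((n p + 1 : ℂ))⁻¹ • ∑ i, f (x p i)
  have hnn : ∀ m : ℕ, ‖((m + 1 : ℂ))⁻¹‖ = ((m : ℝ) + 1)⁻¹ := by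
    intro m
    rw [norm_inv]
    have : (m + 1 : ℂ) = ((m + 1 : ℝ) : ℂ) := by push_cast; ring
    rw [this, Complex.norm_real, Real.norm_of_nonneg (by positivity)]
  have hT : ∀ p, ‖T p‖ ≤ K := by
    intro p
    have : ‖∑ i, f (x p i)‖ ≤ (n p + 1) * K := by
      refine (norm_sum_le _ _).trans ?_
      refine (Finset.sum_le_sum fun i _ => hf _).trans ?_
      simp
    calc ‖T p‖ = ((n p : ℝ) + 1)⁻¹ * ‖∑ i, f (x p i)‖ := by
          simp only [T]
          rw [norm_smul, hnn]
      _ ≤ ((n p : ℝ) + 1)⁻¹ * ((n p + 1) * K) := by gcongr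
      _ = K := by field_simp
  have key : ∀ p : Finset G × ℕ, ∀ u ∈ p.1,
      ‖D u.1.1 - (op u * T p - T p * op u)‖ ≤ 2 * K / (p.2 + 1) := by
    intro p u hu
    have h2 := hx p K f hf u hu
    have h3 : ∀ g : G, f g * op u = op u * f (g * u) - D u.1.1 := by
      intro g
      have h4 : D (g * u).1.1 = op g * D u.1.1 + D g.1.1 * op u := hD.leib g.1.1 u.1.1
      have h5 : op u * f (g * u) = star (op g) * D (g * u).1.1 := by
        simp only [f]
        rw [opmul, opc g u, star_mul, ← mul_assoc, ← mul_assoc]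
        have h6 : op u * star (op g) = star (op g) * op u := by
          calc op u * star (op g) = (star (op g) * op g) * (op u * star (op g)) := by
                rw [ops1, one_mul]
            _ = star (op g) * (op g * op u) * star (op g) := by noncomm_ring
            _ = star (op g) * (op u * op g) * star (op g) := by rw [opc]
            _ = star (op g) * op u * (op g * star (op g)) := by noncomm_ring
            _ = star (op g) * op u := by rw [ops2, mul_one]
        rw [h6, mul_assoc (star (op g)) (op u), ops2, mul_one]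
      rw [h5, h4, mul_add, ← mul_assoc (star (op g)) (op g), ops1, one_mul, add_sub_cancel_left,
        mul_assoc]
    have h4 : D u.1.1 - (op u * T p - T p * op u) =
        op u * (((n p + 1 : ℂ))⁻¹ • ∑ i, (f (x p i * u) - f (x p i))) := by
      have h5 : T p * op u = ((n p + 1 : ℂ))⁻¹ • ∑ i, (op u * f (x p i * u)) - D u.1.1 := by
        simp only [T]
        rw [smul_mul_assoc, Finset.sum_mul]
        simp_rw [h3]
        rw [Finset.sum_sub_distrib, smul_sub]
        congr 1
        simp only [Finset.sum_const, Finset.card_univ, Fintype.card_fin]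
        rw [← Nat.cast_smul_eq_nsmul ℂ, smul_smul]
        push_cast
        rw [inv_mul_cancel₀ (by exact_mod_cast Nat.succ_ne_zero (n p)), one_smul]
      rw [h5, Finset.sum_sub_distrib, smul_sub, mul_sub]
      simp only [T]
      rw [← Finset.mul_sum, mul_smul_comm, mul_smul_comm]
      abel
    rw [h4]
    calc ‖op u * (((n p + 1 : ℂ))⁻¹ • ∑ i, (f (x p i * u) - f (x p i)))‖
        ≤ ‖op u‖ * ‖((n p + 1 : ℂ))⁻¹ • ∑ i, (f (x p i * u) - f (x p i))‖ := norm_mul_le _ _
      _ ≤ 1 * (2 * K / (p.2 + 1)) := mul_le_mul (opn u) h2 (norm_nonneg _) zero_le_one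
      _ = _ := one_mul _
  -- the weak limit
  let 𝒰 : Ultrafilter (Finset G × ℕ) := Ultrafilter.of atTop
  have hU : (𝒰 : Filter (Finset G × ℕ)) ≤ atTop := Ultrafilter.of_le atTop
  obtain ⟨S, hS, hlim⟩ := h1 H (Finset G × ℕ) 𝒰 T K hT
  have main : ∀ u : G, D u.1.1 = op u * S - S * op u := by
    intro u
    have hin : ∀ y z : H, ⟪y, D u.1.1 z⟫_ℂ = ⟪y, (op u * S - S * op u) z⟫_ℂ := by
      intro y z
      have t1 : Tendsto (fun p => ⟪y, (op u * T p - T p * op u) z⟫_ℂ) 𝒰
          (𝓝 ⟪y, (op u * S - S * op u) z⟫_ℂ) := by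
        have e1 : ∀ R : H →L[ℂ] H, ⟪y, (op u * R - R * op u) z⟫_ℂ =
            ⟪star (op u) y, R z⟫_ℂ - ⟪y, R (op u z)⟫_ℂ := by
          intro R
          rw [ContinuousLinearMap.sub_apply, inner_sub_right]
          congr 1
          rw [ContinuousLinearMap.star_eq_adjoint, ContinuousLinearMap.adjoint_inner_left]
          rfl
        simp_rw [e1]
        exact (hlim _ _).sub (hlim _ _)
      have t2 : Tendsto (fun p => ⟪y, (op u * T p - T p * op u) z⟫_ℂ) 𝒰 (𝓝 ⟪y, D u.1.1 z⟫_ℂ) := by
        rw [tendsto_iff_norm_sub_tendsto_zero]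
        have t3 : Tendsto (fun p : Finset G × ℕ => 2 * K / ((p.2 : ℝ) + 1) * ‖z‖ * ‖y‖) 𝒰 (𝓝 0) := by
          have t4 : Tendsto (fun p : Finset G × ℕ => 2 * K / ((p.2 : ℝ) + 1)) atTop (𝓝 0) := by
            have t5 : Tendsto (fun k : ℕ => 2 * K / ((k : ℝ) + 1)) atTop (𝓝 0) := by
              have := (tendsto_one_div_add_atTop_nhds_zero_nat (𝕜 := ℝ)).const_mul (2 * K)
              rw [mul_zero] at this
              refine this.congr fun k => ?_
              ring
            exact t5.comp (tendsto_snd.mono_left (by rw [← prod_atTop_atTop_eq]))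
          have := ((t4.mono_left hU).mul_const ‖z‖).mul_const ‖y‖
          simpa using this
        refine squeeze_zero' (Eventually.of_forall fun p => norm_nonneg _) ?_ t3
        have ev : ∀ᶠ p : Finset G × ℕ in 𝒰, u ∈ p.1 := by
          apply hU
          filter_upwards [eventually_ge_atTop (({u} : Finset G), 0)] with p hp
          exact hp.1 (Finset.mem_singleton_self u)
        filter_upwards [ev] with p hp
        rw [← inner_sub_right, ← ContinuousLinearMap.sub_apply]
        have h6 : ‖(op u * T p - T p * op u) - D u.1.1‖ ≤ 2 * K / (p.2 + 1) := by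
          rw [norm_sub_rev]
          exact key p u hp
        calc ‖⟪y, ((op u * T p - T p * op u) - D u.1.1) z⟫_ℂ‖
            ≤ ‖y‖ * ‖((op u * T p - T p * op u) - D u.1.1) z‖ := norm_inner_le_norm _ _
          _ ≤ ‖y‖ * (2 * K / (p.2 + 1) * ‖z‖) := by
              refine mul_le_mul_of_nonneg_left ?_ (norm_nonneg _)
              exact ((op u * T p - T p * op u) - D u.1.1).le_of_opNorm_le h6 z
          _ = 2 * K / (p.2 + 1) * ‖z‖ * ‖y‖ := by ring
      exact tendsto_nhds_unique t2 t1
    ext z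
    exact ext_inner_left ℂ fun y => hin y z
  -- linear combinations of unitaries
  refine ⟨-S, by rw [norm_neg]; exact hS, fun c hcen => ?_⟩
  have hcZ : c ∈ Z := by
    rw [hZ]
    intro g
    exact Subtype.ext (hcen.2 g g.2).symm
  have hspan : (⟨c, hcZ⟩ : Z) ∈ Submodule.span ℂ (unitary Z : Set Z) := by
    let _ : PartialOrder Z := CStarAlgebra.spectralOrder Z
    have _ : StarOrderedRing Z := CStarAlgebra.spectralOrderedRing Z
    rw [CStarAlgebra.span_unitary Z]
    exact Submodule.mem_top
  have hall : ∀ w : Z, w ∈ Submodule.span ℂ (unitary Z : Set Z) →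
      D w.1 = -S * ((w.1 : M.toStarSubalgebra) : H →L[ℂ] H) -
        ((w.1 : M.toStarSubalgebra) : H →L[ℂ] H) * -S := by
    intro w hw
    induction hw using Submodule.span_induction with
    | mem w hw =>
      have h := main ⟨w, hw⟩
      simp only [op] at h
      rw [h]
      noncomm_ring
    | zero => simp
    | add a b _ _ ha hb =>
      have e1 : D (a + b : Z).1 = D a.1 + D b.1 := map_add D a.1 b.1
      rw [e1, ha, hb]
      have e2 : (((a + b : Z).1 : M.toStarSubalgebra) : H →L[ℂ] H) =
        ((a.1 : M.toStarSubalgebra) : H →L[ℂ] H) + ((b.1 : M.toStarSubalgebra) : H →L[ℂ] H) := rfl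
      rw [e2]
      noncomm_ring
    | smul t a _ ha =>
      have e1 : D (t • a : Z).1 = t • D a.1 := map_smul D t a.1
      rw [e1, ha]
      have e2 : (((t • a : Z).1 : M.toStarSubalgebra) : H →L[ℂ] H) =
        t • ((a.1 : M.toStarSubalgebra) : H →L[ℂ] H) := rfl
      rw [e2, smul_sub, mul_smul_comm, smul_mul_assoc]
  exact hall _ hspan

end H744R2.KZ
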